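import Pool.Agent.H699.T.Dec

/-!
# TSP: the general theorem from the subroutine
-/

set_option autoImplicit false

namespace Pool.Agent.H218.T.ETA

open Finset Classical
open Pool.Agent.H699.T

/-- everything which depends on the information only -/
theorem info_eq (hNET : S_NET) (hD2 : S_D2) {n : ℕ} [NeZero n] {m : ℕ} {K0 θ : ℝ}
    (hm2 : 2 ≤ m) (hmn : m < n) {d d' : Fin n → Fin n → ℝ} (hd : RMet d)
    (h : info m K0 θ d = info m K0 θ d') :
    rad d m = rad d' m ∧ cen d m K0 θ = cen d' m K0 θ ∧ dt d m K0 θ = dt d' m K0 θ ∧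
    (∀ i c, fib d m K0 θ i c = fib d' m K0 θ i c) ∧ (∀ i, img d m K0 θ i = img d' m K0 θ i) := by
  unfold info at h
  simp only [Prod.mk.injEq] at h
  obtain ⟨h1, -, h3, h4, h5⟩ := h
  have hrow : ∀ c ∈ cen d m K0 θ, ∀ y, d' c y = d c y := by
    intro c hc y
    have e := congrFun (congrFun h5 c) y
    have hc' : c ∈ cen d' m K0 θ := by rw [← h3]; exact hc
    simp only [hc, hc', if_true] at e
    exact e.symm
  have hr : ∀ i : ℕ, (0 : ℝ) ≤ i * rad d m := by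
    intro i
    exact mul_nonneg (Nat.cast_nonneg i) (hNET n d hd m hm2 hmn).2.1.le
  have hfr : ∀ i : ℕ, fr d' (cen d' m K0 θ) (i * rad d' m) = fr d (cen d m K0 θ) (i * rad d m) := by
    intro i
    rw [← h3, ← h1]
    exact ((hD2 n d hd (cen d m K0 θ) (i * rad d m) (hr i)).2.2.2.2.2 d' hrow).1
  refine ⟨h1, h3, h4, ?_, ?_⟩
  · intro i c
    unfold fib
    rw [hfr i]
  · intro i
    unfold img
    rw [hfr i]

/-- the value of the algorithm -/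
noncomputable def val {n : ℕ} [NeZero n] (m : ℕ) (K0 θ : ℝ) (K1 KJ : ℕ) (hK : K1 ≤ KJ) (e2 : ℝ)
    (Q : Finset (Fin n) → ℝ → DT (Fin n) ℝ ℝ) (d : Fin n → Fin n → ℝ) : ℝ :=
  (Icc K1 KJ).inf' ⟨K1, by simp [hK]⟩
    (valD d m K0 θ (fun i c => (Q (fib d m K0 θ i c) (e2 * rad d m)).eval d))

theorem loc (hLOC : S_LOCBASIC) (hNET : S_NET) (hD2 : S_D2) {n : ℕ} [NeZero n] {m : ℕ}
    {K0 θ : ℝ} (hm2 : 2 ≤ m) (hmn : m < n) {K1 KJ : ℕ} (hK : K1 ≤ KJ) (e2 : ℝ)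
    (Q : Finset (Fin n) → ℝ → DT (Fin n) ℝ ℝ) (h0 c1 c2 : ℕ)
    (hc1 : LocOn {d : Fin n → Fin n → ℝ | RMet d} c1 (info m K0 θ))
    (hcen : ∀ d : Fin n → Fin n → ℝ, RMet d → (cen d m K0 θ).card ≤ h0)
    (hc2 : ∀ d : Fin n → Fin n → ℝ, RMet d → ∀ i, K1 ≤ i → i ≤ KJ → ∀ c,
      (Q (fib d m K0 θ i c) (e2 * rad d m)).cost d ≤ c2) :
    LocOn {d : Fin n → Fin n → ℝ | RMet d} (c1 + (KJ + 1) * h0 * c2)
      (val m K0 θ K1 KJ hK e2 Q) := by
  obtain ⟨hmono, hbind, hfun, hconst, -, -, hpi⟩ := hLOC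
  refine hbind _ _ _ _ _ c1 _ (info m K0 θ) _ hc1 ?_
  intro a
  by_cases hne : ∃ d0 : Fin n → Fin n → ℝ, RMet d0 ∧ info m K0 θ d0 = a
  · obtain ⟨d0, hd0, ha⟩ := hne
    set D : Set (Fin n → Fin n → ℝ) := {d | d ∈ {d : Fin n → Fin n → ℝ | RMet d} ∧
      info m K0 θ d = a} with hD
    have hall : ∀ d ∈ D, rad d m = rad d0 m ∧ cen d m K0 θ = cen d0 m K0 θ ∧
        dt d m K0 θ = dt d0 m K0 θ ∧ (∀ i c, fib d m K0 θ i c = fib d0 m K0 θ i c) ∧
        (∀ i, img d m K0 θ i = img d0 m K0 θ i) := by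
      intro d hd
      exact info_eq hNET hD2 hm2 hmn hd.1 (hd.2.trans ha.symm)
    set I : Finset (ℕ × Fin n) := (Icc K1 KJ) ×ˢ (cen d0 m K0 θ) with hI
    set g : ℕ × Fin n → (Fin n → Fin n → ℝ) → ℝ := fun p d =>
      (Q (fib d0 m K0 θ p.1 p.2) (e2 * rad d0 m)).eval d with hg
    have hloc1 : ∀ p ∈ I, LocOn D c2 (g p) := by
      intro p hp
      refine ⟨Q (fib d0 m K0 θ p.1 p.2) (e2 * rad d0 m), ?_⟩
      intro d hd
      refine ⟨rfl, ?_⟩
      obtain ⟨e1, -, -, e4, -⟩ := hall d hd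
      rw [← e1, ← e4]
      rw [hI, mem_product, mem_Icc] at hp
      exact hc2 d hd.1 p.1 hp.1.1 hp.1.2 p.2
    have hloc2 := hpi _ _ _ _ D c2 I g hloc1
    have hloc3 := hfun _ _ _ _ D _ _ (val m K0 θ K1 KJ hK e2 Q) hloc2 (by
      intro d hd d' hd' hdd
      obtain ⟨e1, e2', e3, e4, e5⟩ := hall d hd
      obtain ⟨f1, f2, f3, f4, f5⟩ := hall d' hd'
      unfold val
      apply Finset.inf'_congr _ rfl
      intro i hi
      unfold valD
      rw [e3, e5, e2', f3, f5, f2]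
      congr 1
      apply Finset.sum_congr rfl
      intro c hc
      beta_reduce
      rw [e1, e4, f1, f4]
      have h6 := congrFun hdd (i, c)
      have h7 : (i, c) ∈ I := by
        rw [hI, mem_product]
        exact ⟨hi, (mem_inter.1 hc).1⟩
      simp only [h7, if_true] at h6
      exact h6)
    refine hmono _ _ _ D D _ _ _ hloc3 (le_refl _) ?_
    apply Nat.mul_le_mul_right
    rw [hI, card_product, Nat.card_Icc]
    exact Nat.mul_le_mul (by omega) (hcen d0 hd0)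
  · refine hmono _ _ _ _ _ 0 _ _ (hconst _ _ _ _ _ ?_) (le_refl _) (Nat.zero_le _)
    intro d hd
    exact absurd ⟨d, hd.1, hd.2⟩ hne

theorem prob (hEX : S_EXBASIC) {n : ℕ} [NeZero n] {m : ℕ} {K0 θ : ℝ}
    {K1 KJ : ℕ} (hK : K1 ≤ KJ) (e2 : ℝ) {M : ℕ}
    (P : Fin M → Finset (Fin n) → ℝ → DT (Fin n) ℝ ℝ) (h0 : ℕ) (pf δ0 : ℝ) (hpf : 0 ≤ pf)
    (d : Fin n → Fin n → ℝ) (hcen : (cen d m K0 θ).card ≤ h0)
    (hv : ∀ v : ℕ → Fin n → ℝ,
        (∀ i, K1 ≤ i → i ≤ KJ → ∀ c ∈ cen d m K0 θ ∩ img d m K0 θ i,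
          tsp d (fib d m K0 θ i c) ≤ v i c ∧
          v i c ≤ (2 - δ0) * tsp d (fib d m K0 θ i c) +
            (2 + 1) * (fib d m K0 θ i c).card * (e2 * rad d m)) →
        (∀ i, K1 ≤ i → i ≤ KJ → tsp d univ ≤ valD d m K0 θ v i) ∧
        ∃ i, K1 ≤ i ∧ i ≤ KJ ∧ valD d m K0 θ v i ≤ (2 - δ0 / 2) * tsp d univ)
    (hP : ∀ i, K1 ≤ i → i ≤ KJ → ∀ c, pr (fun s : Fin M =>
      ¬ (tsp d (fib d m K0 θ i c) ≤ (P s (fib d m K0 θ i c) (e2 * rad d m)).eval d ∧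
        (P s (fib d m K0 θ i c) (e2 * rad d m)).eval d ≤ (2 - δ0) * tsp d (fib d m K0 θ i c) +
          (2 + 1) * (fib d m K0 θ i c).card * (e2 * rad d m))) ≤ pf) :
    pr (fun s : Fin M => ¬ (tsp d univ ≤ val m K0 θ K1 KJ hK e2 (P s) d ∧
        val m K0 θ K1 KJ hK e2 (P s) d ≤ (2 - δ0 / 2) * tsp d univ)) ≤ ((KJ + 1) * h0 : ℕ) * pf := by
  obtain ⟨-, -, -, -, -, -, -, -, -, hmono, -, hunion⟩ := hEX
  set I : Finset (ℕ × Fin n) := (Icc K1 KJ) ×ˢ (cen d m K0 θ) with hI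
  have hIc : I.card ≤ (KJ + 1) * h0 := by
    rw [hI, card_product, Nat.card_Icc]
    exact Nat.mul_le_mul (by omega) hcen
  set B : ℕ × Fin n → Fin M → Prop := fun p s =>
    ¬ (tsp d (fib d m K0 θ p.1 p.2) ≤ (P s (fib d m K0 θ p.1 p.2) (e2 * rad d m)).eval d ∧
        (P s (fib d m K0 θ p.1 p.2) (e2 * rad d m)).eval d ≤
          (2 - δ0) * tsp d (fib d m K0 θ p.1 p.2) +
          (2 + 1) * (fib d m K0 θ p.1 p.2).card * (e2 * rad d m)) with hB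
  have h1 : pr (fun s : Fin M => ∃ p ∈ I, B p s) ≤ ((KJ + 1) * h0 : ℕ) * pf := by
    refine (hunion _ _ I B).trans ?_
    have h2 : ∑ p ∈ I, pr (B p) ≤ ∑ p ∈ I, pf := by
      apply Finset.sum_le_sum
      intro p hp
      rw [hI, mem_product, mem_Icc] at hp
      exact hP p.1 hp.1.1 hp.1.2 p.2
    refine h2.trans ?_
    rw [Finset.sum_const, nsmul_eq_mul]
    exact mul_le_mul_of_nonneg_right (by exact_mod_cast hIc) hpf
  refine (hmono _ _ _ ?_).trans h1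
  intro s hs
  by_contra hc
  push Not at hc
  apply hs
  have h3 := hv (fun i c => (P s (fib d m K0 θ i c) (e2 * rad d m)).eval d) (by
    intro i hi1 hi2 c hcc
    have h4 := hc (i, c) (by
      rw [hI, mem_product, mem_Icc]
      exact ⟨⟨hi1, hi2⟩, (mem_inter.1 hcc).1⟩)
    exact h4)
  obtain ⟨h4, i, hi1, hi2, h5⟩ := h3
  constructor
  · unfold val
    apply Finset.le_inf'
    intro j hj
    rw [mem_Icc] at hj
    exact h4 j hj.1 hj.2
  · unfold val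
    refine le_trans (Finset.inf'_le _ (b := i) (mem_Icc.2 ⟨hi1, hi2⟩)) h5

theorem t_ETA : S_EXBASIC → S_LOCBASIC → S_TSPLE → S_TSPATT → S_NET → S_D1 → S_D1LOC →
    S_D2 → S_DINEQ → S_SUB → S_ETA := by
  intro hEX hLOC _ _ hNET hD1 hD1L hD2 hDI hSUB
  obtain ⟨δ0, hδ0, hδ1, hSUB⟩ := hSUB
  refine ⟨δ0 / 2, by linarith, by linarith, ?_⟩
  intro η hη
  set e : ℝ := min η 1 with he
  have he0 : 0 < e := lt_min hη one_pos
  have he1 : e ≤ 1 := min_le_right _ _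
  have heη : e ≤ η := min_le_left _ _
  set θ : ℝ := e / 8 with hθ
  have hθ0 : 0 < θ := by positivity
  have hθ1 : θ ≤ 1 := by rw [hθ]; linarith
  obtain ⟨K0, K1, KJ, K, e2, hK0, hK, hKp, he2, hDI⟩ := hDI δ0 (e / 8) θ hδ0 hδ1 (by positivity)
    hθ0 hθ1
  set h0 : ℕ := ⌊1 / θ⌋₊ + 1 with hh0
  set T : ℕ := (KJ + 1) * h0 with hT
  have hT1 : 1 ≤ T := by
    rw [hT]
    exact Nat.one_le_iff_ne_zero.2 (Nat.mul_ne_zero (by omega) (by omega))
  have hT0 : (0 : ℝ) < T := by exact_mod_cast hT1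
  obtain ⟨N0, hN0⟩ := hSUB K 1 (e / (8 * T)) (1 / (3 * T)) hKp one_pos (by positivity)
    (by positivity)
  -- large n
  obtain ⟨n1, hn1⟩ := exists_nat_gt ((1 + 1 / θ + T * N0) * 8 / (5 * e))
  obtain ⟨n2, hn2⟩ := exists_nat_gt (16 / e)
  refine ⟨n1 + n2 + 2, ?_⟩
  intro n hn
  have hnR : (n1 : ℝ) + n2 + 2 ≤ n := by exact_mod_cast hn
  have hn1' : (1 + 1 / θ + T * N0) * 8 / (5 * e) ≤ n := by
    have : (0 : ℝ) ≤ n2 := Nat.cast_nonneg _
    linarith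
  have hn2' : 16 / e ≤ n := by
    have : (0 : ℝ) ≤ n1 := Nat.cast_nonneg _
    linarith
  have hn3 : (2 : ℝ) ≤ n := by
    have : (0 : ℝ) ≤ n1 := Nat.cast_nonneg _
    have : (0 : ℝ) ≤ n2 := Nat.cast_nonneg _
    linarith
  haveI : NeZero n := ⟨by omega⟩
  set m : ℕ := ⌈e / 8 * n⌉₊ with hm
  have hm1 : e / 8 * n ≤ m := Nat.le_ceil _
  have hm1' : (m : ℝ) < e / 8 * n + 1 := Nat.ceil_lt_add_one (by positivity)
  have hm2 : 2 ≤ m := by
    have h1 : (2 : ℝ) ≤ e / 8 * n := by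
      have h2 : 16 ≤ e * n := by
        rw [div_le_iff₀ he0] at hn2'
        linarith
      linarith
    have h3 : (2 : ℝ) ≤ m := h1.trans hm1
    exact_mod_cast h3
  have hmn : m < n := by
    have h1 : e / 8 * n ≤ 1 / 8 * n := by
      apply mul_le_mul_of_nonneg_right _ (Nat.cast_nonneg n)
      linarith
    have h2 : (m : ℝ) < n := by linarith
    exact_mod_cast h2
  obtain ⟨M, hM, P, hP⟩ := hN0 n
  obtain ⟨c1, hc1, hloc1⟩ := hD1L n m K0 θ hm2 hmn hK0 hθ0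
  have hcen : ∀ d : Fin n → Fin n → ℝ, RMet d → (cen d m K0 θ).card ≤ h0 := by
    intro d hd
    have h1 := (hD1 n d hd m K0 θ hm2 hmn hK0 hθ0).2.2.2.2.1
    have h2 : ((cen d m K0 θ).card : ℝ) ≤ 1 / θ := by
      rw [le_div_iff₀ hθ0]
      exact h1
    have h3 := Nat.le_floor h2
    omega
  have hdiam : ∀ d : Fin n → Fin n → ℝ, RMet d → ∀ i, K1 ≤ i → i ≤ KJ → ∀ c,
      ∀ x ∈ fib d m K0 θ i c, ∀ y ∈ fib d m K0 θ i c, d x y ≤ K * (e2 * rad d m) := by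
    intro d hd
    exact (hDI n d hd m hm2 hmn hm1).1
  have hu : ∀ d : Fin n → Fin n → ℝ, RMet d → 0 < e2 * rad d m := fun d hd =>
    mul_pos he2 (hNET n d hd m hm2 hmn).2.1
  set c2 : ℕ := ⌊e / (8 * T) * n ^ 2 + N0⌋₊ with hc2
  have hc2' : ∀ s : Fin M, ∀ d : Fin n → Fin n → ℝ, RMet d → ∀ i, K1 ≤ i → i ≤ KJ → ∀ c,
      (P s (fib d m K0 θ i c) (e2 * rad d m)).cost d ≤ c2 := by
    intro s d hd i hi1 hi2 c
    have h1 := (hP (fib d m K0 θ i c) (e2 * rad d m) d (hu d hd) hd (hdiam d hd i hi1 hi2 c)).1 s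
    apply Nat.le_floor
    refine h1.trans ?_
    have h2 : ((fib d m K0 θ i c).card : ℝ) ≤ n := by
      have := Finset.card_le_univ (fib d m K0 θ i c)
      rw [Fintype.card_fin] at this
      exact_mod_cast this
    have h3 : ((fib d m K0 θ i c).card : ℝ) ^ 2 ≤ (n : ℝ) ^ 2 :=
      pow_le_pow_left₀ (Nat.cast_nonneg _) h2 2
    have h4 : 0 ≤ e / (8 * (T : ℝ)) := by positivity
    have h5 := mul_le_mul_of_nonneg_left h3 h4
    linarith
  have hlocs : ∀ s : Fin M, LocOn {d : Fin n → Fin n → ℝ | RMet d} (c1 + T * c2)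
      (val m K0 θ K1 KJ hK e2 (P s)) := by
    intro s
    exact loc hLOC hNET hD2 hm2 hmn hK e2 (P s) h0 c1 c2 hloc1 hcen (hc2' s)
  choose P' hP' using hlocs
  refine ⟨M, hM, P', ?_⟩
  intro d hd
  constructor
  · intro s
    have h1 : ((P' s).cost d : ℝ) ≤ c1 + T * c2 := by exact_mod_cast (hP' s d hd).2
    have h2 : (c2 : ℝ) ≤ e / (8 * T) * n ^ 2 + N0 := Nat.floor_le (by positivity)
    have h3 : (T : ℝ) * c2 ≤ e / 8 * n ^ 2 + T * N0 := by
      have h4 := mul_le_mul_of_nonneg_left h2 hT0.le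
      have h5 : (T : ℝ) * (e / (8 * T) * n ^ 2 + N0) = e / 8 * n ^ 2 + T * N0 := by
        field_simp
      linarith
    have h4 : (m : ℝ) * n ≤ e / 8 * n ^ 2 + n := by
      have := mul_le_mul_of_nonneg_right hm1'.le (Nat.cast_nonneg (α := ℝ) n)
      nlinarith
    have hn0 : (0 : ℝ) < n := by linarith
    have h5 : n + n / θ + T * N0 ≤ 5 * e / 8 * n ^ 2 := by
      have h6 : (1 + 1 / θ + T * N0) * 8 ≤ n * (5 * e) := by
        rw [div_le_iff₀ (by positivity)] at hn1'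
        exact hn1'
      have h7 : (T : ℝ) * N0 ≤ T * N0 * n := by
        have : (0 : ℝ) ≤ T * N0 := by positivity
        nlinarith
      have h8 : n + n / θ + T * N0 ≤ (1 + 1 / θ + T * N0) * n := by
        have : (n : ℝ) / θ = 1 / θ * n := by ring
        rw [this]
        nlinarith
      have h9 := mul_le_mul_of_nonneg_right h6 hn0.le
      nlinarith
    have h6 : θ * (n : ℝ) ^ 2 = e / 8 * n ^ 2 := rfl
    have h7 : e * (n : ℝ) ^ 2 ≤ η * n ^ 2 := mul_le_mul_of_nonneg_right heη (by positivity)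
    nlinarith
  · have h1 := prob hEX hK e2 P h0 (1 / (3 * T)) δ0 (by positivity) d (hcen d hd)
      (hDI n d hd m hm2 hmn hm1).2 (by
        intro i hi1 hi2 c
        exact (hP (fib d m K0 θ i c) (e2 * rad d m) d (hu d hd) hd
          (hdiam d hd i hi1 hi2 c)).2)
    have h2 : ((T : ℕ) : ℝ) * (1 / (3 * T)) = 1 / 3 := by
      field_simp
    have h3 : ∀ s, (P' s).eval d = val m K0 θ K1 KJ hK e2 (P s) d := fun s => (hP' s d hd).1
    have h4 : (fun s : Fin M => ¬ (tsp d univ ≤ (P' s).eval d ∧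
        (P' s).eval d ≤ (2 - δ0 / 2) * tsp d univ)) = (fun s : Fin M =>
        ¬ (tsp d univ ≤ val m K0 θ K1 KJ hK e2 (P s) d ∧
        val m K0 θ K1 KJ hK e2 (P s) d ≤ (2 - δ0 / 2) * tsp d univ)) := by
      funext s
      rw [h3 s]
    rw [h4]
    calc _ ≤ ((KJ + 1) * h0 : ℕ) * (1 / (3 * (T : ℝ))) := h1
      _ = 1 / 3 := h2
      _ ≤ 1 / 3 := le_refl _

end Pool.Agent.H218.T.ETA
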